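import Pool.Agent.ABG.ModelProof

set_option autoImplicit false

/-!
# Disproof of the conjecture on the homology of the Allison-Benkart-Gao Lie algebra of a free
alternative algebra

The conjecture says that the homology `H_r(ABG(Alt(V)))` has no trivial and no adjoint component of
`sl_3` for `r > 1`. It fails for every vector space `V` of dimension at least three, over every
field of characteristic zero: there is a degree `r` with `2 ≤ r ≤ 10` in which the homology has a
nonzero vector annihilated by `sl_3` or a submodule isomorphic to the adjoint module.

The definitions used in the statement are in `Model.lean` (with `CE.lean` and `Defs.lean`). The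
objects are constructed in `FreeAlt.lean`, `LieDef.lean` and `Lie.lean`.

Proof. If there is no such component, then for every `n` with `2 ≤ n ≤ 10` the Euler characteristic
of the part of degree `n` of the Chevalley-Eilenberg complex has multiplicity zero at the trivial
and at the adjoint module. These equations determine the dimensions of the homogeneous components
of `Alt(V)` and of `B(Alt(V))` recursively, and for `dim V = 3` they give
`dim Alt(V)_10 = 56961`, which is less than `3 ^ 10 = 59049`. But `Alt(V)` maps onto the free
associative algebra. A larger `V` is reduced to this case by a retraction.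
-/

namespace Pool.Agent.Results.MP_894cc0_al.TrivialOrAdjoint

open Pool.ABG

/-- Let `k` be a field of characteristic zero and `X` a finite set with at least three elements. Let
`A` be the free alternative algebra on `X` and `L` the Allison-Benkart-Gao Lie algebra of `A` with
the action `a` of the scalar matrices. Then for some `r` with `2 ≤ r ≤ 10` the homology of degree
`r` of `L` has a nonzero vector annihilated by `sl_3` or contains the adjoint module `sl_3`. -/
theorem result (k : Type) [Field k] [CharZero k] (X : Type) [Fintype X]
    (hX : 3 ≤ Fintype.card X) :
    ∃ (A : Type) (_ : NonUnitalNonAssocRing A) (_ : Module k A) (_ : IsScalarTower k A A)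
      (_ : SMulCommClass k A A) (_ : IsAlt A) (i : X → A) (L : Type) (_ : LieRing L)
      (_ : LieAlgebra k L) (m : L →ₗ[k] Matrix (Fin 3) (Fin 3) A) (b : L →ₗ[k] B k A)
      (a : Matrix (Fin 3) (Fin 3) k → L →ₗ[k] L),
      IsFreeAlt k i ∧ IsABG m b ∧ IsAction m b a ∧
        ∃ r : ℕ, 2 ≤ r ∧ r ≤ 10 ∧ (TrivComp a r ∨ AdjComp a r) :=
  model_final k X hX

end Pool.Agent.Results.MP_894cc0_al.TrivialOrAdjoint
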